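import Pool.Agent.W8.ST.Stm

/-!
# Linear operators on the space of solutions (project ST, part LOp)
-/

set_option autoImplicit false

namespace Pool.Agent.W506.ST

open Pool.Agent.W8.ST

theorem LOp_proof : LOp := by
  classical
  intro hE lam sig T hT hcongr hadd hsmul
  obtain ⟨hmem, hSadd, hSsmul⟩ := hE
  have hex : ∀ v : E lam sig, ∃ u, Sol lam sig u ∧ ∀ x : strip 3, (v : strip 3 → ℝ) x = u x :=
    fun v => (hmem lam sig v).mp v.2
  choose R hR1 hR2 using hex
  have key : ∀ (v : E lam sig) u, Sol lam sig u →
      (∀ x : strip 3, (v : strip 3 → ℝ) x = u x) → ∀ x : strip 3, T (R v) x = T u x := by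
    intro v u hu hv x
    apply hcongr (R v) u (hR1 v) hu _ x x.2
    intro y hy
    rw [← hR2 v ⟨y, hy⟩, hv ⟨y, hy⟩]
  let L : E lam sig →ₗ[ℝ] E lam sig :=
    { toFun := fun v => ⟨fun x => T (R v) x,
        (hmem lam sig _).mpr ⟨T (R v), hT _ (hR1 v), fun _ => rfl⟩⟩
      map_add' := by
        intro v v'
        apply Subtype.ext
        funext x
        show T (R (v + v')) x = T (R v) x + T (R v') x
        rw [key (v + v') (R v + R v') (hSadd _ _ _ _ (hR1 v) (hR1 v')) (by
          intro y
          show (v : strip 3 → ℝ) y + (v' : strip 3 → ℝ) y = R v y + R v' y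
          rw [hR2 v y, hR2 v' y]) x]
        exact hadd _ _ (hR1 v) (hR1 v') x x.2
      map_smul' := by
        intro c v
        apply Subtype.ext
        funext x
        show T (R (c • v)) x = c * T (R v) x
        rw [key (c • v) (c • R v) (hSsmul _ _ _ _ (hR1 v)) (by
          intro y
          show c * (v : strip 3 → ℝ) y = c * R v y
          rw [hR2 v y]) x]
        exact hsmul c _ (hR1 v) x x.2 }
  refine ⟨L, ?_⟩
  intro v u hu hv x
  exact key v u hu hv x

end Pool.Agent.W506.ST
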