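import Pool.Agent.W8.ST.Stm

/-!
# The trial function (project ST, part Tri)
-/

set_option autoImplicit false

open scoped ContDiff Topology
open MeasureTheory

namespace Pool.Agent.W506.ST

open Pool.Agent.W8.ST

lemma tau_hasDerivAt (t : ℝ) : HasDerivAt (fun t : ℝ => (max t 0) ^ 2) (2 * max t 0) t := by
  rcases lt_trichotomy t 0 with h | h | h
  · rw [max_eq_right h.le, mul_zero]
    apply (hasDerivAt_const t (0 : ℝ)).congr_of_eventuallyEq
    filter_upwards [Iio_mem_nhds h] with s hs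
    rw [max_eq_right (le_of_lt hs)]
    norm_num
  · subst h
    rw [max_self, mul_zero, hasDerivAt_iff_isLittleO_nhds_zero]
    have h1 : (fun h : ℝ => h ^ 2) =o[𝓝 0] fun h : ℝ => h :=
      Asymptotics.isLittleO_pow_id one_lt_two
    refine Asymptotics.IsBigO.trans_isLittleO ?_ h1
    apply Asymptotics.IsBigO.of_bound 1
    filter_upwards with h
    simp only [zero_add, max_self, smul_zero, sub_zero, one_mul, Real.norm_eq_abs]
    have h2 : (0 : ℝ) ^ 2 = 0 := by norm_num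
    rw [h2, sub_zero, abs_of_nonneg (sq_nonneg _), abs_of_nonneg (sq_nonneg _)]
    rcases le_total h 0 with h3 | h3
    · rw [max_eq_right h3]
      nlinarith [sq_nonneg h]
    · rw [max_eq_left h3]
  · rw [max_eq_left h.le]
    have h1 : HasDerivAt (fun s : ℝ => s ^ 2) (2 * t) t := by
      simpa using hasDerivAt_pow 2 t
    apply h1.congr_of_eventuallyEq
    filter_upwards [Ioi_mem_nhds h] with s hs
    rw [max_eq_left (le_of_lt hs)]

lemma tau_deriv : deriv (fun t : ℝ => (max t 0) ^ 2) = fun t => 2 * max t 0 :=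
  funext fun t => (tau_hasDerivAt t).deriv

lemma tau_C1 : ContDiff ℝ 1 (fun t : ℝ => (max t 0) ^ 2) := by
  rw [contDiff_one_iff_deriv]
  refine ⟨fun t => (tau_hasDerivAt t).differentiableAt, ?_⟩
  rw [tau_deriv]
  fun_prop

lemma q_pos (t : ℝ) : 0 < q t := Real.exp_pos _

lemma q_one_le (t : ℝ) (h0 : 0 ≤ t) (h1 : t ≤ 1) : 1 ≤ q t := by
  unfold q
  apply Real.one_le_exp
  have : t ^ 2 ≤ 1 := by nlinarith
  have : 0 ≤ 1 - t ^ 2 := by linarith
  positivity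

lemma q_big (t : ℝ) (h0 : 1 / 2 ≤ t) (h1 : t ≤ 3 / 4) : 380 ≤ q t := by
  unfold q
  have h2 : (6 : ℝ) ≤ 20 * t * (1 - t ^ 2) := by
    nlinarith [mul_nonneg (sub_nonneg.mpr h1) (by nlinarith : (0 : ℝ) ≤ t ^ 2 + 3 / 4 * t - 7 / 16)]
  have h3 : Real.exp 6 ≤ Real.exp (20 * t * (1 - t ^ 2)) := Real.exp_le_exp.mpr h2
  have h4 : Real.exp 6 = Real.exp 1 ^ 6 := by
    rw [← Real.exp_nat_mul]
    norm_num
  have h5 : (2.7 : ℝ) ^ 6 ≤ Real.exp 1 ^ 6 :=
    pow_le_pow_left₀ (by norm_num) (by have := Real.exp_one_gt_d9; linarith) 6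
  have h6 : (380 : ℝ) ≤ 2.7 ^ 6 := by norm_num
  linarith

theorem Tri_proof : Tri := by
  refine ⟨fun t : ℝ => (max t 0) ^ 2, tau_C1, ?_⟩
  rw [tau_deriv]
  set g : ℝ → ℝ := fun t => (2 * max t 0) ^ 2 +
    (((q t)⁻¹) ^ 2 - 1 / 2 * q t) * ((max t 0) ^ 2) ^ 2 with hg
  have hqc : Continuous q := by
    unfold q
    fun_prop
  have hqi : Continuous (fun t => (q t)⁻¹) := hqc.inv₀ (fun t => (q_pos t).ne')
  have hgc : Continuous g := by
    simp only [hg]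
    fun_prop
  have hii : ∀ a b : ℝ, IntervalIntegrable g volume a b := fun a b => hgc.intervalIntegrable a b
  have hpt : ∀ a b c : ℝ, a ≤ b → (∀ t ∈ Set.Icc a b, g t ≤ c) →
      ∫ t in a..b, g t ≤ (b - a) * c := by
    intro a b c hab h
    have h1 := intervalIntegral.integral_mono_on hab (hii a b)
      (intervalIntegrable_const (c := c)) h
    rw [intervalIntegral.integral_const, smul_eq_mul] at h1
    exact h1
  have hgen : ∀ t : ℝ, 0 ≤ t → g t = 4 * t ^ 2 + (((q t)⁻¹) ^ 2 - 1 / 2 * q t) * t ^ 4 := by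
    intro t ht
    simp only [hg, max_eq_left ht]
    ring
  have hup : ∀ t : ℝ, 0 ≤ t → t ≤ 1 → ((q t)⁻¹) ^ 2 ≤ 1 := by
    intro t h0 h1
    have h2 := q_one_le t h0 h1
    have h3 : (q t)⁻¹ ≤ 1 := inv_le_one_of_one_le₀ h2
    have h4 : 0 ≤ (q t)⁻¹ := inv_nonneg.mpr (q_pos t).le
    nlinarith
  have i1 : ∫ t in (-1 : ℝ)..0, g t ≤ (0 - (-1)) * 0 := by
    apply hpt _ _ _ (by norm_num)
    intro t ht
    simp only [hg, max_eq_right ht.2]
    norm_num
  have i2 : ∫ t in (0 : ℝ)..(1 / 2), g t ≤ (1 / 2 - 0) * (1 + 1 / 32) := by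
    apply hpt _ _ _ (by norm_num)
    intro t ht
    have ht1 : t ≤ 1 := ht.2.trans (by norm_num)
    rw [hgen t ht.1]
    have h1 := hup t ht.1 ht1
    have h2 := q_one_le t ht.1 ht1
    have h3 : t ^ 2 ≤ 1 / 4 := by nlinarith [ht.1, ht.2]
    have h4 : t ^ 4 ≤ 1 / 16 := by nlinarith [sq_nonneg t]
    have h5 : 0 ≤ t ^ 4 := by positivity
    have h6 : (((q t)⁻¹) ^ 2 - 1 / 2 * q t) * t ^ 4 ≤ 1 / 2 * t ^ 4 :=
      mul_le_mul_of_nonneg_right (by linarith) h5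
    linarith
  have i3 : ∫ t in (1 / 2 : ℝ)..(3 / 4), g t ≤ (3 / 4 - 1 / 2) * (9 / 4 - 189 / 16) := by
    apply hpt _ _ _ (by norm_num)
    intro t ht
    have ht0 : 0 ≤ t := le_trans (by norm_num) ht.1
    have ht1 : t ≤ 1 := ht.2.trans (by norm_num)
    rw [hgen t ht0]
    have h1 := hup t ht0 ht1
    have h2 := q_big t ht.1 ht.2
    have h3 : t ^ 2 ≤ 9 / 16 := by nlinarith [ht.1, ht.2]
    have h3' : 1 / 4 ≤ t ^ 2 := by nlinarith [ht.1, ht.2]
    have h4 : 1 / 16 ≤ t ^ 4 := by nlinarith [sq_nonneg t]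
    have h5 : 0 ≤ t ^ 4 := by positivity
    have h6 : (((q t)⁻¹) ^ 2 - 1 / 2 * q t) * t ^ 4 ≤ (-189) * t ^ 4 :=
      mul_le_mul_of_nonneg_right (by linarith) h5
    linarith
  have i4 : ∫ t in (3 / 4 : ℝ)..1, g t ≤ (1 - 3 / 4) * (9 / 2) := by
    apply hpt _ _ _ (by norm_num)
    intro t ht
    have ht0 : 0 ≤ t := le_trans (by norm_num) ht.1
    rw [hgen t ht0]
    have h1 := hup t ht0 ht.2
    have h2 := q_one_le t ht0 ht.2
    have h3 : t ^ 2 ≤ 1 := by nlinarith [ht.2]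
    have h4 : t ^ 4 ≤ 1 := by nlinarith [sq_nonneg t]
    have h5 : 0 ≤ t ^ 4 := by positivity
    have h6 : (((q t)⁻¹) ^ 2 - 1 / 2 * q t) * t ^ 4 ≤ 1 / 2 * t ^ 4 :=
      mul_le_mul_of_nonneg_right (by linarith) h5
    linarith
  have e1 : ∫ t in (-1 : ℝ)..1, g t = (∫ t in (-1 : ℝ)..0, g t) + (∫ t in (0 : ℝ)..(1 / 2), g t) +
      (∫ t in (1 / 2 : ℝ)..(3 / 4), g t) + ∫ t in (3 / 4 : ℝ)..1, g t := by
    rw [intervalIntegral.integral_add_adjacent_intervals (hii _ _) (hii _ _),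
      intervalIntegral.integral_add_adjacent_intervals (hii _ _) (hii _ _),
      intervalIntegral.integral_add_adjacent_intervals (hii _ _) (hii _ _)]
  have e2 : ∫ t in (-1 : ℝ)..1, ((2 * max t 0) ^ 2 +
      (((q t)⁻¹) ^ 2 - 1 / 2 * q t) * ((max t 0) ^ 2) ^ 2) = ∫ t in (-1 : ℝ)..1, g t := rfl
  rw [e1]
  norm_num at i1 i2 i3 i4 ⊢
  linarith

end Pool.Agent.W506.ST
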