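import Pool.Agent.W8.ST.Stm

/-!
# Uniqueness for the linear equation (project ST, part Uni)
-/

set_option autoImplicit false

open scoped ContDiff

namespace Pool.Agent.W506.ST

open Pool.Agent.W8.ST

theorem Uni_proof : Uni := by
  intro f w s hf hw hs hode hws hdws t ht
  obtain ⟨C, hC⟩ := isCompact_Icc.exists_bound_of_continuousOn (s := Set.Icc (-1 : ℝ) 1)
    hf.continuousOn
  have hC0 : 0 ≤ C := (norm_nonneg _).trans (hC s hs)
  have hw1 : ∀ t, HasDerivAt w (deriv w t) t := fun t =>
    (hw.differentiable (by norm_num) t).hasDerivAt
  have hw' : ContDiff ℝ 1 (deriv w) := by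
    have h : ContDiff ℝ (1 + 1) w := by
      have e : (1 + 1 : WithTop ℕ∞) = 2 := by norm_num
      rw [e]
      exact hw
    exact (contDiff_succ_iff_deriv.mp h).2.2
  have hw2 : ∀ t, HasDerivAt (deriv w) (deriv (deriv w) t) t := fun t =>
    (hw'.differentiable (by norm_num) t).hasDerivAt
  set K : ℝ := 1 + C with hK
  have hKpos : 0 ≤ K := by linarith
  -- energy
  set e : ℝ → ℝ := fun t => w t ^ 2 + deriv w t ^ 2 with he
  have hed : ∀ t, HasDerivAt e (2 * w t * deriv w t + 2 * deriv w t * deriv (deriv w) t) t := by
    intro t
    have h1 := (hw1 t).pow 2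
    have h2 := (hw2 t).pow 2
    have h3 := h1.add h2
    refine h3.congr_deriv ?_
    norm_num
  have hbound : ∀ t ∈ Set.Icc (-1 : ℝ) 1,
      |2 * w t * deriv w t + 2 * deriv w t * deriv (deriv w) t| ≤ K * e t := by
    intro t ht
    rw [hode t ht]
    have h1 : 2 * w t * deriv w t + 2 * deriv w t * (f t * w t) =
        (1 + f t) * (2 * (w t * deriv w t)) := by ring
    rw [h1, abs_mul]
    have h2 : |1 + f t| ≤ K := by
      have h3 := hC t ht
      rw [Real.norm_eq_abs] at h3
      calc |1 + f t| ≤ |1| + |f t| := abs_add_le _ _
        _ ≤ 1 + C := by rw [abs_one]; linarith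
    have h4 : |2 * (w t * deriv w t)| ≤ e t := by
      rw [abs_le]
      constructor
      · simp only [he]
        nlinarith [sq_nonneg (w t + deriv w t)]
      · simp only [he]
        nlinarith [sq_nonneg (w t - deriv w t)]
    exact mul_le_mul h2 h4 (abs_nonneg _) hKpos
  have hepos : ∀ t, 0 ≤ e t := fun t => by simp only [he]; positivity
  have hes : e s = 0 := by simp only [he, hws, hdws]; norm_num
  have het : e t = 0 := by
    apply le_antisymm _ (hepos t)
    rcases le_total s t with hst | hst
    · -- e * exp (-K t) is antitone
      have hanti : AntitoneOn (fun r => e r * Real.exp (-K * r)) (Set.Icc s t) := by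
        apply antitoneOn_of_hasDerivWithinAt_nonpos (convex_Icc s t)
          (f' := fun r => (2 * w r * deriv w r + 2 * deriv w r * deriv (deriv w) r) *
            Real.exp (-K * r) + e r * (Real.exp (-K * r) * (-K * 1)))
        · apply Continuous.continuousOn
          have h1 : Continuous e := continuous_iff_continuousAt.mpr (fun r => (hed r).continuousAt)
          fun_prop
        · intro r _
          exact ((hed r).mul (((hasDerivAt_id' r).const_mul (-K)).exp)).hasDerivWithinAt
        · intro r hr
          rw [interior_Icc] at hr
          have hr' : r ∈ Set.Icc (-1 : ℝ) 1 := ⟨hs.1.trans hr.1.le, hr.2.le.trans ht.2⟩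
          have h1 := (abs_le.mp (hbound r hr')).2
          have h2 := Real.exp_pos (-K * r)
          have h3 : (2 * w r * deriv w r + 2 * deriv w r * deriv (deriv w) r) *
            Real.exp (-K * r) + e r * (Real.exp (-K * r) * (-K * 1)) =
            ((2 * w r * deriv w r + 2 * deriv w r * deriv (deriv w) r) - K * e r) *
              Real.exp (-K * r) := by ring
          rw [h3]
          exact mul_nonpos_of_nonpos_of_nonneg (by linarith) h2.le
      have h1 := hanti (Set.left_mem_Icc.mpr hst) (Set.right_mem_Icc.mpr hst) hst
      simp only [hes, zero_mul] at h1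
      have h2 := Real.exp_pos (-K * t)
      by_contra hcon
      push_neg at hcon
      have := mul_pos hcon h2
      linarith
    · have hmono : MonotoneOn (fun r => e r * Real.exp (K * r)) (Set.Icc t s) := by
        apply monotoneOn_of_hasDerivWithinAt_nonneg (convex_Icc t s)
          (f' := fun r => (2 * w r * deriv w r + 2 * deriv w r * deriv (deriv w) r) *
            Real.exp (K * r) + e r * (Real.exp (K * r) * (K * 1)))
        · apply Continuous.continuousOn
          have h1 : Continuous e := continuous_iff_continuousAt.mpr (fun r => (hed r).continuousAt)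
          fun_prop
        · intro r _
          exact ((hed r).mul (((hasDerivAt_id' r).const_mul K).exp)).hasDerivWithinAt
        · intro r hr
          rw [interior_Icc] at hr
          have hr' : r ∈ Set.Icc (-1 : ℝ) 1 := ⟨ht.1.trans hr.1.le, hr.2.le.trans hs.2⟩
          have h1 := (abs_le.mp (hbound r hr')).1
          have h2 := Real.exp_pos (K * r)
          have h3 : (2 * w r * deriv w r + 2 * deriv w r * deriv (deriv w) r) *
            Real.exp (K * r) + e r * (Real.exp (K * r) * (K * 1)) =
            ((2 * w r * deriv w r + 2 * deriv w r * deriv (deriv w) r) + K * e r) *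
              Real.exp (K * r) := by ring
          rw [h3]
          exact mul_nonneg (by linarith) h2.le
      have h1 := hmono (Set.left_mem_Icc.mpr hst) (Set.right_mem_Icc.mpr hst) hst
      simp only [hes, zero_mul] at h1
      have h2 := Real.exp_pos (K * t)
      by_contra hcon
      push_neg at hcon
      have := mul_pos hcon h2
      linarith
  have h5 : w t ^ 2 ≤ 0 := by
    have h6 : w t ^ 2 + deriv w t ^ 2 = 0 := het
    nlinarith [sq_nonneg (deriv w t)]
  have h7 : w t ^ 2 = 0 := le_antisymm h5 (sq_nonneg _)
  exact pow_eq_zero_iff (two_ne_zero) |>.mp h7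

end Pool.Agent.W506.ST
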